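import Pool.Agent.Y320.BP.Cube2

set_option autoImplicit false

namespace Pool.Agent.Y320.BP

open Pool.Agent.Helper358.LOne Pool.Agent.Helper358.Box Cardinal Topology

universe u v w

/-- The ball absorbs the Hilbert cube. -/
theorem ball_cube (κ : Type u) [Uncountable κ] : Nonempty (Ball κ ≃ₜ Ball κ × (ℕ → II)) := by
  obtain ⟨h1⟩ := ball_homeo_pos κ
  obtain ⟨h2⟩ := Pos_cube κ
  exact ⟨(h1.trans h2).trans (h1.symm.prodCongr (Homeomorph.refl _))⟩

/-- Every factor of the Hilbert cube is absorbed by each band. -/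
theorem band_absorbs {κ Λ : Type u} [Uncountable κ] [Uncountable Λ] {a b : κ → ℝ} {c d : Λ → ℝ}
    (h : Band a b) (h' : Band c d) (hc : #κ = #Λ) (K : Type v) [TopologicalSpace K]
    (hK : Nonempty ((K × (ℕ → II)) ≃ₜ (ℕ → II))) : Nonempty (B c d ≃ₜ B a b × K) := by
  obtain ⟨e⟩ := ball_band h
  obtain ⟨e'⟩ := ball_band h'
  obtain ⟨f⟩ := Cardinal.eq.mp hc
  obtain ⟨r⟩ := homeo_reindex f
  obtain ⟨k⟩ := hK
  obtain ⟨q⟩ := ball_cube κ
  -- Ball κ ≃ Ball κ × Q ≃ Ball κ × (K × Q) ≃ (Ball κ × Q) × K ≃ Ball κ × K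
  have h1 : Ball κ ≃ₜ Ball κ × K :=
    (q.trans ((Homeomorph.refl _).prodCongr (k.symm.trans (Homeomorph.prodComm _ _)))).trans
      ((Homeomorph.prodAssoc _ _ _).symm.trans (q.symm.prodCongr (Homeomorph.refl _)))
  exact ⟨(e'.symm.trans r.symm).trans (h1.trans (e.prodCongr (Homeomorph.refl _)))⟩

/-- powers of the interval with countably many factors are factors of the Hilbert cube -/
theorem cube_factor (J : Type) [Countable J] : Nonempty (((J → II) × (ℕ → II)) ≃ₜ (ℕ → II)) := by
  have h : Nonempty (J ⊕ ℕ ≃ ℕ) := nonempty_equiv_of_countable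
  obtain ⟨e⟩ := h
  exact ⟨(Homeomorph.sumArrowHomeomorphProdArrow (ι := J) (ι' := ℕ) (X := II)).symm.trans
    (Homeomorph.piCongrLeft (Y := fun _ => II) e)⟩

theorem convex_Ball (Λ : Type u) : Convex ℝ (Ball Λ) := by
  intro x hx y hy s t hs ht hst F
  calc ∑ i ∈ F, |(s • x + t • y) i| ≤ ∑ i ∈ F, (s * |x i| + t * |y i|) := by
        refine Finset.sum_le_sum fun i _ => ?_
        refine (abs_add_le _ _).trans ?_
        simp only [Pi.smul_apply, smul_eq_mul, abs_mul, abs_of_nonneg hs, abs_of_nonneg ht]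
        exact le_rfl
    _ = s * ∑ i ∈ F, |x i| + t * ∑ i ∈ F, |y i| := by
        rw [Finset.sum_add_distrib, Finset.mul_sum, Finset.mul_sum]
    _ ≤ s * 1 + t * 1 := add_le_add (mul_le_mul_of_nonneg_left (hx F) hs)
        (mul_le_mul_of_nonneg_left (hy F) ht)
    _ = 1 := by linarith

theorem contractible_Ball (Λ : Type u) : ContractibleSpace (Ball Λ) :=
  (convex_Ball Λ).contractibleSpace ⟨0, fun F => by simp⟩

/-- A retract of a contractible space is contractible. -/
theorem contractible_of_retract {X : Type u} {Y : Type v} [TopologicalSpace X]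
    [TopologicalSpace Y] [ContractibleSpace Y] (i : C(X, Y)) (r : C(Y, X))
    (h : ∀ x, r (i x) = x) : ContractibleSpace X := by
  rw [contractible_iff_id_nullhomotopic]
  have h1 := id_nullhomotopic Y
  have h2 : (ContinuousMap.id X) = r.comp ((ContinuousMap.id Y).comp i) := by
    ext x
    exact (h x).symm
  rw [h2]
  exact (h1.comp_left i).comp_right r

/-- A space absorbed by a band is a retract of the ball. -/
theorem retract_of_absorbed {κ Λ : Type u} [Uncountable κ] [Uncountable Λ] {a b : κ → ℝ}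
    {c d : Λ → ℝ} (h : Band a b) (h' : Band c d) (K : Type v) [TopologicalSpace K]
    (g : B c d ≃ₜ B a b × K) :
    ∃ (i : C(K, Ball Λ)) (r : C(Ball Λ, K)), ∀ k, r (i k) = k := by
  obtain ⟨e⟩ := ball_band h
  obtain ⟨e'⟩ := ball_band h'
  let x0 : B a b := e ⟨0, fun F => by simp⟩
  refine ⟨⟨fun k => e'.symm (g.symm (x0, k)), ?_⟩, ⟨fun y => (g (e' y)).2, ?_⟩, fun k => ?_⟩
  · exact e'.symm.continuous.comp (g.symm.continuous.comp (Continuous.prodMk continuous_const
      continuous_id))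
  · exact continuous_snd.comp (g.continuous.comp e'.continuous)
  · change (g (e' (e'.symm (g.symm (x0, k))))).2 = k
    rw [e'.apply_symm_apply, g.apply_symm_apply]

theorem card_le_of_absorbed {κ Λ : Type u} [Uncountable κ] [Uncountable Λ] {a b : κ → ℝ}
    {c d : Λ → ℝ} (h : Band a b) (h' : Band c d) (K : Type v) [TopologicalSpace K] [Nonempty K]
    (g : B c d ≃ₜ B a b × K) : #κ ≤ #Λ := by
  obtain ⟨e⟩ := ball_band h
  obtain ⟨e'⟩ := ball_band h'
  obtain ⟨k0⟩ := ‹Nonempty K›
  let F : C(Fin 1 → Ball Λ, Fin 1 → Ball κ) :=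
    ⟨fun z _ => e.symm (g (e' (z 0))).1, continuous_pi fun _ =>
      e.symm.continuous.comp (continuous_fst.comp (g.continuous.comp
        (e'.continuous.comp (continuous_apply 0))))⟩
  refine card_le ‹_› (0 : Fin 1) (emb_of_surj F fun y => ⟨fun _ => e'.symm (g.symm (e (y 0), k0)), ?_⟩)
  funext i
  change e.symm (g (e' (e'.symm (g.symm (e (y 0), k0))))).1 = y i
  rw [e'.apply_symm_apply, g.apply_symm_apply, e.symm_apply_apply, Subsingleton.elim i 0]

theorem card_ge_of_absorbed {κ Λ : Type u} [Uncountable κ] [Uncountable Λ] {a b : κ → ℝ}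
    {c d : Λ → ℝ} (h : Band a b) (h' : Band c d) (K : Type u) [TopologicalSpace K]
    [CompactSpace K] [TopologicalSpace.MetrizableSpace K] [Nonempty K]
    (g : B c d ≃ₜ B a b × K) : #Λ ≤ #κ := by
  obtain ⟨e⟩ := ball_band h
  obtain ⟨e'⟩ := ball_band h'
  let _ : MetricSpace K := TopologicalSpace.metrizableSpaceMetric K
  let fl : κ → C(Ball κ × K, ℝ) := fun a =>
    ⟨fun q => q.1.1 a, (continuous_apply a).comp (continuous_subtype_val.comp continuous_fst)⟩
  let fr : ℕ → C(Ball κ × K, ℝ) := fun n =>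
    ⟨fun q => dist q.2 (TopologicalSpace.denseSeq K n),
      continuous_snd.dist continuous_const⟩
  obtain ⟨D, hD, hDc⟩ := exists_dense (K := Ball κ × K) (Set.range fl ∪ Set.range fr) (by
    rintro ⟨x, k⟩ ⟨y, l⟩ hne
    by_cases hxy : x = y
    · have hkl : k ≠ l := by
        rintro rfl
        exact hne (by rw [hxy])
      have hpos : 0 < dist k l := dist_pos.mpr hkl
      obtain ⟨n, hn⟩ := (TopologicalSpace.denseRange_denseSeq K).exists_dist_lt k
        (half_pos hpos)
      refine ⟨fr n, Or.inr ⟨n, rfl⟩, fun heq => ?_⟩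
      change dist k (TopologicalSpace.denseSeq K n) = dist l (TopologicalSpace.denseSeq K n) at heq
      have h3 := dist_triangle_right k l (TopologicalSpace.denseSeq K n)
      linarith
    · have h1 : x.1 ≠ y.1 := fun h => hxy (Subtype.ext h)
      obtain ⟨a, ha⟩ := Function.ne_iff.mp h1
      exact ⟨fl a, Or.inl ⟨a, rfl⟩, ha⟩)
  have h0 : ℵ₀ ≤ #κ := (aleph0_lt ‹Uncountable κ›).le
  have hS : max #(Set.range fl ∪ Set.range fr : Set C(Ball κ × K, ℝ)) ℵ₀ ≤ #κ := by
    refine max_le ?_ h0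
    refine (mk_union_le _ _).trans ?_
    refine (add_le_add (mk_range_le (f := fl)) ?_).trans (add_eq_self h0).le
    exact ((Set.countable_range fr).le_aleph0).trans h0
  let H : C(Ball κ × K, Fin 1 → Ball Λ) :=
    ⟨fun q _ => e'.symm (g.symm (e q.1, q.2)), continuous_pi fun _ =>
      e'.symm.continuous.comp (g.symm.continuous.comp
        ((e.continuous.comp continuous_fst).prodMk continuous_snd))⟩
  have hH : Function.Surjective H := by
    intro y
    refine ⟨(e.symm (g (e' (y 0))).1, (g (e' (y 0))).2), ?_⟩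
    funext i
    change e'.symm (g.symm (e (e.symm (g (e' (y 0))).1), (g (e' (y 0))).2)) = y i
    rw [e.apply_symm_apply, Prod.mk.eta, g.symm_apply_apply, e'.symm_apply_apply,
      Subsingleton.elim i 0]
  exact (card_le_of_emb (0 : Fin 1) D hD (emb_of_surj H hH)).trans (hDc.trans hS)

end Pool.Agent.Y320.BP
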