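import Pool.Agent.Y320.BP.Red

/-!
Isomorphic embeddings between the spaces `C(B(κ)^I)`, `I` countable.
-/

set_option autoImplicit false

namespace Pool.Agent.Y320.BP

open Pool.Agent.Helper358.LOne Cardinal Topology

universe u v w

theorem aleph0_lt {κ : Type u} (h : Uncountable κ) : ℵ₀ < #κ :=
  Cardinal.aleph0_lt_mk_iff.mpr h

/-- `C(B(κ)^ω)` does not embed into `C(B(Λ)^m)`. -/
theorem omega_not {κ : Type u} (Λ : Type u) (hκ : Uncountable κ) (m : ℕ) :
    ¬ Emb C(ℕ → Ball κ, ℝ) C(Fin m → Ball Λ, ℝ) := by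
  intro h
  have h0 := aleph0_lt hκ
  obtain ⟨D, hD, hDc⟩ := exists_dense_ball ℕ κ
  rw [max_eq_left h0.le] at hDc
  obtain ⟨T, c, hc, hT⟩ := reduce h0.le D hD hDc h
  exact omega_not_embed m T hc hT

/-- `C(A(κ)^ω)` does not embed into `C(B(Λ)^m)`. -/
theorem one_not {κ : Type u} [TopologicalSpace κ] [DiscreteTopology κ] (Λ : Type u)
    (hκ : Uncountable κ) (m : ℕ) :
    ¬ Emb C(ℕ → OnePoint κ, ℝ) C(Fin m → Ball Λ, ℝ) := by
  intro h
  have h0 := aleph0_lt hκ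
  obtain ⟨D, hD, hDc⟩ := exists_dense_one κ
  rw [max_eq_left h0.le] at hDc
  obtain ⟨T, c, hc, hT⟩ := reduce h0.le D hD hDc h
  exact A_not_embed m T hc hT

/-- `C(B(κ)^n)` does not embed into `C(B(Λ)^m)` for `m < n`, `κ ≥ ℵ_ω`. -/
theorem fin_not {κ : Type u} (Λ : Type u) (hκ : ℵ_ Ordinal.omega0 ≤ #κ) {m n : ℕ} (hmn : m < n) :
    ¬ Emb C(Fin n → Ball κ, ℝ) C(Fin m → Ball Λ, ℝ) := by
  intro h
  have h0 : ℵ₀ ≤ #κ := (aleph0_le_aleph _).trans hκ
  obtain ⟨D, hD, hDc⟩ := exists_dense_ball (Fin n) κ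
  rw [max_eq_left h0] at hDc
  obtain ⟨T, c, hc, hT⟩ := reduce h0 D hD hDc h
  have hΓ : ∀ v : ℕ, ∃ S : Set κ, #S = ℵ_ ((v + 1 : ℕ) : Ordinal.{u}) := by
    intro v
    refine Cardinal.le_mk_iff_exists_set.mp (le_trans ?_ hκ)
    exact Cardinal.aleph_le_aleph.mpr (Ordinal.natCast_lt_omega0 _).le
  choose Γ hΓ using hΓ
  exact Pool.Agent.TH50.BK.no_embedding Γ hΓ hmn T hc hT

/-- Embeddings of powers. -/
theorem emb_pow {κ Λ : Type u} {I J : Type} (h : #κ ≤ #Λ) (f : I ↪ J) :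
    Emb C(I → Ball κ, ℝ) C(J → Ball Λ, ℝ) := by
  obtain ⟨E⟩ : Nonempty (κ ↪ Λ) := h
  let F : C(J → Ball Λ, I → Ball κ) :=
    ⟨fun z i => res E E.injective (z (f i)), continuous_pi fun i =>
      (continuous_res E E.injective).comp (continuous_apply (f i))⟩
  refine emb_of_surj F fun y => ?_
  refine ⟨Function.extend f (fun i => extI E E.injective (y i)) (fun _ => ⟨fun _ => 0, by
    intro S
    simp⟩), ?_⟩
  funext i
  change res E E.injective (Function.extend f (fun i => extI E E.injective (y i)) _ (f i)) = y i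
  rw [f.injective.extend_apply, res_extI]

/-- The cardinal is determined. -/
theorem card_le {κ Λ : Type u} {I J : Type} [Countable J] (hκ : Uncountable κ) (i0 : I)
    (h : Emb C(I → Ball κ, ℝ) C(J → Ball Λ, ℝ)) : #κ ≤ #Λ := by
  obtain ⟨D, hD, hDc⟩ := exists_dense_ball J Λ
  have h1 := (card_le_of_emb i0 D hD h).trans hDc
  have h0 := aleph0_lt hκ
  rcases le_max_iff.mp h1 with h2 | h2
  · exact h2
  · exact absurd h2 (not_le.mpr h0)

/-- Isomorphisms of powers. -/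
theorem equiv_pow {κ Λ : Type u} {I J : Type} (e : κ ≃ Λ) (f : I ≃ J) :
    Nonempty (C(I → Ball κ, ℝ) ≃L[ℝ] C(J → Ball Λ, ℝ)) := by
  let F : C(I → Ball κ, J → Ball Λ) :=
    ⟨fun z j => res e.symm e.symm.injective (z (f.symm j)), continuous_pi fun j =>
      (continuous_res e.symm e.symm.injective).comp (continuous_apply (f.symm j))⟩
  let G : C(J → Ball Λ, I → Ball κ) :=
    ⟨fun z i => res e e.injective (z (f i)), continuous_pi fun i =>
      (continuous_res e e.injective).comp (continuous_apply (f i))⟩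
  have hFG : ∀ z, F (G z) = z := by
    intro z
    funext j
    apply Subtype.ext
    funext b
    change (z (f (f.symm j))).1 (e (e.symm b)) = (z j).1 b
    rw [f.apply_symm_apply, e.apply_symm_apply]
  have hGF : ∀ z, G (F z) = z := by
    intro z
    funext i
    apply Subtype.ext
    funext a
    change (z (f.symm (f i))).1 (e.symm (e a)) = (z i).1 a
    rw [f.symm_apply_apply, e.symm_apply_apply]
  refine ⟨ContinuousLinearEquiv.equivOfInverse (pre G) (pre F) ?_ ?_⟩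
  · intro g
    ext z
    change g (G (F z)) = g z
    rw [hGF]
  · intro g
    ext z
    change g (F (G z)) = g z
    rw [hFG]

/-- Embeddings of powers with infinitely many factors. -/
theorem emb_iff_infinite (κ Λ : Type u) (I J : Type) (hκ : Uncountable κ) (hI : Infinite I)
    (hIc : Countable I) (_ : Countable J) :
    Emb C(I → Ball κ, ℝ) C(J → Ball Λ, ℝ) ↔ #κ ≤ #Λ ∧ Infinite J := by
  constructor
  · intro h
    refine ⟨card_le hκ (Classical.arbitrary I) h, ?_⟩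
    by_contra hJ
    rw [not_infinite_iff_finite] at hJ
    have := Fintype.ofFinite J
    have h1 : Emb C(ℕ → Ball κ, ℝ) C(I → Ball κ, ℝ) := emb_pow le_rfl (Infinite.natEmbedding I)
    have h2 : Emb C(J → Ball Λ, ℝ) C(Fin (Fintype.card J) → Ball Λ, ℝ) :=
      emb_pow le_rfl (Fintype.equivFin J).toEmbedding
    exact omega_not Λ hκ _ ((h1.trans h).trans h2)
  · rintro ⟨h, hJ⟩
    obtain ⟨f⟩ : Nonempty (I ↪ J) := by
      obtain ⟨g, hg⟩ := hIc
      exact ⟨(⟨g, hg⟩ : I ↪ ℕ).trans (Infinite.natEmbedding J)⟩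
    exact emb_pow h f

/-- Embeddings of countable powers, `κ ≥ ℵ_ω`. -/
theorem emb_iff (κ Λ : Type u) (I J : Type) (hκ : ℵ_ Ordinal.omega0 ≤ #κ) (hI : Nonempty I)
    (hIc : Countable I) (_ : Countable J) :
    Emb C(I → Ball κ, ℝ) C(J → Ball Λ, ℝ) ↔ #κ ≤ #Λ ∧ #I ≤ #J := by
  have hunc : Uncountable κ := by
    rw [← Cardinal.aleph0_lt_mk_iff]
    refine lt_of_lt_of_le ?_ hκ
    rw [← aleph_zero]
    exact aleph_lt_aleph.mpr Ordinal.omega0_pos
  constructor
  · intro h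
    refine ⟨card_le hunc (Classical.arbitrary I) h, ?_⟩
    by_contra hIJ
    rw [not_le] at hIJ
    have hJ : Finite J := by
      rw [← lt_aleph0_iff_finite]
      exact hIJ.trans_le mk_le_aleph0
    have := Fintype.ofFinite J
    have h3 : ((Fintype.card J + 1 : ℕ) : Cardinal) ≤ #I := by
      rw [Nat.cast_succ, ← mk_fintype]
      exact Order.succ_le_of_lt hIJ |>.trans' (by
        rw [mk_fintype, ← Nat.cast_succ, succ_natCast, Nat.cast_succ])
    have h4 : #(Fin (Fintype.card J + 1)) ≤ #I := by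
      rwa [mk_fin]
    obtain ⟨g⟩ : Nonempty (Fin (Fintype.card J + 1) ↪ I) := h4
    have h1 : Emb C(Fin (Fintype.card J + 1) → Ball κ, ℝ) C(I → Ball κ, ℝ) := emb_pow le_rfl g
    have h2 : Emb C(J → Ball Λ, ℝ) C(Fin (Fintype.card J) → Ball Λ, ℝ) :=
      emb_pow le_rfl (Fintype.equivFin J).toEmbedding
    exact fin_not Λ hκ (Nat.lt_succ_self _) ((h1.trans h).trans h2)
  · rintro ⟨h, ⟨f⟩⟩
    exact emb_pow h f

/-- Isomorphisms of countable powers, `κ ≥ ℵ_ω`. -/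
theorem equiv_iff (κ Λ : Type u) (I J : Type) (hκ : ℵ_ Ordinal.omega0 ≤ #κ) (hI : Nonempty I)
    (hIc : Countable I) (hJc : Countable J) :
    Nonempty (C(I → Ball κ, ℝ) ≃L[ℝ] C(J → Ball Λ, ℝ)) ↔ #κ = #Λ ∧ #I = #J := by
  constructor
  · rintro ⟨e⟩
    obtain ⟨h1, h2⟩ := (emb_iff κ Λ I J hκ hI hIc hJc).mp (emb_of_equiv e)
    have hJ : Nonempty J := by
      obtain ⟨f⟩ := h2
      exact ⟨f (Classical.arbitrary I)⟩
    obtain ⟨h3, h4⟩ := (emb_iff Λ κ J I (hκ.trans h1) hJ hJc hIc).mp (emb_of_equiv e.symm)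
    exact ⟨le_antisymm h1 h3, le_antisymm h2 h4⟩
  · rintro ⟨h1, h2⟩
    obtain ⟨e⟩ := Cardinal.eq.mp h1
    obtain ⟨f⟩ := Cardinal.eq.mp h2
    exact equiv_pow e f

/-- Isomorphisms of infinite countable powers. -/
theorem equiv_iff_infinite (κ Λ : Type u) (I J : Type) (hκ : Uncountable κ) (hI : Infinite I)
    (hIc : Countable I) (hJc : Countable J) :
    Nonempty (C(I → Ball κ, ℝ) ≃L[ℝ] C(J → Ball Λ, ℝ)) ↔ #κ = #Λ ∧ Infinite J := by
  constructor
  · rintro ⟨e⟩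
    obtain ⟨h1, h2⟩ := (emb_iff_infinite κ Λ I J hκ hI hIc hJc).mp (emb_of_equiv e)
    have hΛ : Uncountable Λ := by
      rw [← Cardinal.aleph0_lt_mk_iff]
      exact (aleph0_lt hκ).trans_le h1
    obtain ⟨h3, h4⟩ := (emb_iff_infinite Λ κ J I hΛ h2 hJc hIc).mp (emb_of_equiv e.symm)
    exact ⟨le_antisymm h1 h3, h2⟩
  · rintro ⟨h1, h2⟩
    obtain ⟨e⟩ := Cardinal.eq.mp h1
    obtain ⟨f⟩ : Nonempty (I ≃ J) := nonempty_equiv_of_countable
    exact equiv_pow e f

theorem emb_one (κ : Type u) : Emb C(Ball κ, ℝ) C(Fin 1 → Ball κ, ℝ) :=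
  emb_of_surj ⟨fun x => x 0, continuous_apply 0⟩ fun x => ⟨fun _ => x, rfl⟩

end Pool.Agent.Y320.BP
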