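import Pool.Agent.Y320.BP.Main
import Pool.Agent.Helper358.General

/-!
Powers of the bands `B(κ, a, b)` of the ball.
-/

set_option autoImplicit false

namespace Pool.Agent.Y320.BP

open Pool.Agent.Helper358.LOne Cardinal Topology

universe u v w

/-- The space of all `x` with absolute sum at most one and `a i ≤ x i ≤ b i` for all `i`
(the absolute sum is at most one when all finite partial sums are), a subset of the product. -/
def B {κ : Type u} (a b : κ → ℝ) : Set (κ → ℝ) :=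
  {x | (∀ s : Finset κ, ∑ i ∈ s, |x i| ≤ 1) ∧ ∀ i, a i ≤ x i ∧ x i ≤ b i}

instance {κ : Type u} (a b : κ → ℝ) : CompactSpace (B a b) := by
  rw [← isCompact_iff_compactSpace]
  have h1 : B a b = Ball κ ∩ {x | ∀ i, a i ≤ x i ∧ x i ≤ b i} := rfl
  rw [h1]
  refine (isCompact_Ball κ).inter_right ?_
  rw [Set.ofPred_forall]
  refine isClosed_iInter fun i => ?_
  exact (isClosed_le continuous_const (continuous_apply i)).inter
    (isClosed_le (continuous_apply i) continuous_const)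

/-- the bands of the problem (the values of `a` and `b` are arbitrary real numbers) -/
def Band {κ : Type u} (a b : κ → ℝ) : Prop :=
  (∀ i, a i < b i) ∧ (Summable fun i => max (a i) 0 + max (-b i) 0) ∧
    ∑' i, (max (a i) 0 + max (-b i) 0) < 1

theorem ball_band {κ : Type u} [Uncountable κ] {a b : κ → ℝ} (h : Band a b) :
    Nonempty (Ball κ ≃ₜ B a b) := by
  obtain ⟨h1⟩ := Pool.Agent.Helper358.General.B_homeo_Pos a b h.1 h.2.1 h.2.2
  have e : (fun _ : κ => max (-1 : ℝ) 0 + max (-(1 : ℝ)) 0) = fun _ => 0 := by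
    funext i; norm_num
  obtain ⟨h2⟩ := Pool.Agent.Helper358.General.B_homeo_Pos (κ := κ) (fun _ => -1) (fun _ => 1)
    (fun _ => by norm_num) (by rw [e]; exact summable_zero) (by rw [e]; simp)
  have h3 : Ball κ = Pool.Agent.Helper358.General.B (fun _ : κ => (-1 : ℝ)) (fun _ => 1) := by
    ext x
    constructor
    · intro hx
      refine ⟨hx, fun i => ?_⟩
      have := hx {i}
      rw [Finset.sum_singleton] at this
      exact abs_le.mp this
    · intro hx
      exact hx.1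
  exact ⟨((Homeomorph.setCongr h3).trans h2.symm).trans h1⟩

/-- Homeomorphic compact spaces have isomorphic spaces of continuous functions. -/
theorem equiv_of_homeo {K : Type v} {L : Type w} [TopologicalSpace K] [TopologicalSpace L]
    [CompactSpace K] [CompactSpace L] (h : K ≃ₜ L) : Nonempty (C(K, ℝ) ≃L[ℝ] C(L, ℝ)) := by
  refine ⟨ContinuousLinearEquiv.equivOfInverse (pre ⟨h.symm, h.symm.continuous⟩)
    (pre ⟨h, h.continuous⟩) ?_ ?_⟩
  · intro g
    ext z
    change g (h.symm (h z)) = g z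
    rw [h.symm_apply_apply]
  · intro g
    ext z
    change g (h (h.symm z)) = g z
    rw [h.apply_symm_apply]

theorem pow_band {κ : Type u} [Uncountable κ] {a b : κ → ℝ} (h : Band a b) (I : Type) :
    Nonempty (C(I → Ball κ, ℝ) ≃L[ℝ] C(I → B a b, ℝ)) := by
  obtain ⟨e⟩ := ball_band h
  exact equiv_of_homeo (Homeomorph.piCongrRight fun _ => e)

theorem homeo_reindex {κ Λ : Type u} (e : κ ≃ Λ) : Nonempty (Ball κ ≃ₜ Ball Λ) :=
  ⟨{ toFun := res e.symm e.symm.injective
     invFun := res e e.injective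
     left_inv := fun z => by
       apply Subtype.ext
       funext a
       change z.1 (e.symm (e a)) = z.1 a
       rw [e.symm_apply_apply]
     right_inv := fun z => by
       apply Subtype.ext
       funext a
       change z.1 (e (e.symm a)) = z.1 a
       rw [e.apply_symm_apply]
     continuous_toFun := continuous_res _ _
     continuous_invFun := continuous_res _ _ }⟩

/-- Powers of bands with the same cardinals are homeomorphic. -/
theorem homeo_band {κ Λ : Type u} [Uncountable κ] [Uncountable Λ] {a b : κ → ℝ} {c d : Λ → ℝ}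
    (h : Band a b) (h' : Band c d) {I J : Type} (h1 : #κ = #Λ) (h2 : #I = #J) :
    Nonempty ((I → B a b) ≃ₜ (J → B c d)) := by
  obtain ⟨e⟩ := ball_band h
  obtain ⟨e'⟩ := ball_band h'
  obtain ⟨f⟩ := Cardinal.eq.mp h1
  obtain ⟨g⟩ := Cardinal.eq.mp h2
  obtain ⟨r⟩ := homeo_reindex f
  exact ⟨(Homeomorph.piCongrLeft (Y := fun _ => B a b) g).trans
    (Homeomorph.piCongrRight fun _ => (e.symm.trans r).trans e')⟩

section

variable {κ Λ : Type u} [Uncountable κ] [Uncountable Λ] {a b : κ → ℝ} {c d : Λ → ℝ}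
  (h : Band a b) (h' : Band c d)

include h h'

theorem emb_band (I J : Type) :
    Emb C(I → B a b, ℝ) C(J → B c d, ℝ) ↔ Emb C(I → Ball κ, ℝ) C(J → Ball Λ, ℝ) := by
  obtain ⟨e⟩ := pow_band h I
  obtain ⟨f⟩ := pow_band h' J
  constructor
  · intro g
    exact ((emb_of_equiv e).trans g).trans (emb_of_equiv f.symm)
  · intro g
    exact ((emb_of_equiv e.symm).trans g).trans (emb_of_equiv f)

/-- One factor, no restriction on the cardinals. -/
theorem homeo_iff : Nonempty (B a b ≃ₜ B c d) ↔ #κ = #Λ := by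
  constructor
  · rintro ⟨g⟩
    obtain ⟨e⟩ := ball_band h
    obtain ⟨e'⟩ := ball_band h'
    have k : Ball κ ≃ₜ Ball Λ := (e.trans g).trans e'.symm
    obtain ⟨l⟩ := equiv_of_homeo (Homeomorph.piCongrRight fun _ : Fin 1 => k)
    exact le_antisymm (card_le ‹_› 0 (emb_of_equiv l)) (card_le ‹_› 0 (emb_of_equiv l.symm))
  · intro hc
    obtain ⟨g⟩ := homeo_band h h' (I := Unit) (J := Unit) hc rfl
    exact ⟨((Homeomorph.funUnique Unit _).symm.trans g).trans (Homeomorph.funUnique Unit _)⟩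

/-- One factor, spaces of continuous functions. -/
theorem equiv_iff_one : Nonempty (C(B a b, ℝ) ≃L[ℝ] C(B c d, ℝ)) ↔ #κ = #Λ := by
  constructor
  · rintro ⟨g⟩
    obtain ⟨e⟩ := ball_band h
    obtain ⟨e'⟩ := ball_band h'
    obtain ⟨l⟩ := equiv_of_homeo ((Homeomorph.funUnique (Fin 1) (Ball κ)).trans e)
    obtain ⟨l'⟩ := equiv_of_homeo ((Homeomorph.funUnique (Fin 1) (Ball Λ)).trans e')
    have k : C(Fin 1 → Ball κ, ℝ) ≃L[ℝ] C(Fin 1 → Ball Λ, ℝ) := (l.trans g).trans l'.symm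
    exact le_antisymm (card_le ‹_› 0 (emb_of_equiv k)) (card_le ‹_› 0 (emb_of_equiv k.symm))
  · intro hc
    obtain ⟨g⟩ := (homeo_iff h h').mpr hc
    exact equiv_of_homeo g

/-- Powers of bands. -/
theorem band_powers (I J : Type) (hI : Nonempty I) (hIc : Countable I) (hJc : Countable J)
    (hbig : Infinite I ∨ ℵ_ Ordinal.omega0 ≤ #κ) :
    (Emb C(I → B a b, ℝ) C(J → B c d, ℝ) ↔ #κ ≤ #Λ ∧ #I ≤ #J) ∧
    (Nonempty (C(I → B a b, ℝ) ≃L[ℝ] C(J → B c d, ℝ)) ↔ #κ = #Λ ∧ #I = #J) ∧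
    (Nonempty ((I → B a b) ≃ₜ (J → B c d)) ↔ #κ = #Λ ∧ #I = #J) := by
  have hA : Emb C(I → B a b, ℝ) C(J → B c d, ℝ) ↔ #κ ≤ #Λ ∧ #I ≤ #J := by
    rw [emb_band h h' I J]
    rcases hbig with hinf | hbig
    · rw [emb_iff_infinite κ Λ I J ‹_› hinf hIc hJc]
      refine and_congr_right fun _ => ?_
      constructor
      · intro hJ
        rw [mk_eq_aleph0 I, mk_eq_aleph0 J]
      · intro hIJ
        rw [mk_eq_aleph0 I] at hIJ
        exact infinite_iff.mpr hIJ
    · exact emb_iff κ Λ I J hbig hI hIc hJc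
  have hB : Nonempty (C(I → B a b, ℝ) ≃L[ℝ] C(J → B c d, ℝ)) → #κ = #Λ ∧ #I = #J := by
    rintro ⟨e⟩
    obtain ⟨e1⟩ := pow_band h I
    obtain ⟨e2⟩ := pow_band h' J
    have e3 : C(I → Ball κ, ℝ) ≃L[ℝ] C(J → Ball Λ, ℝ) := (e1.trans e).trans e2.symm
    rcases hbig with hinf | hbig
    · obtain ⟨h1, h2⟩ := (equiv_iff_infinite κ Λ I J ‹_› hinf hIc hJc).mp ⟨e3⟩
      exact ⟨h1, by rw [mk_eq_aleph0 I, mk_eq_aleph0 J]⟩
    · exact (equiv_iff κ Λ I J hbig hI hIc hJc).mp ⟨e3⟩
  refine ⟨hA, ⟨hB, ?_⟩, ⟨?_, ?_⟩⟩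
  · rintro ⟨h1, h2⟩
    obtain ⟨g⟩ := homeo_band h h' h1 h2
    exact equiv_of_homeo g
  · rintro ⟨g⟩
    exact hB (equiv_of_homeo g)
  · rintro ⟨h1, h2⟩
    exact homeo_band h h' h1 h2

end

end Pool.Agent.Y320.BP
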