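import Pool.Agent.Helper358.LOne
import Pool.Agent.TH50.BK.Main

/-!
Reduction of the index set of the range, and density characters, for the spaces `C(B(κ)^n)`.
-/

set_option autoImplicit false

namespace Pool.Agent.Y320.BP

open Pool.Agent.Helper358.LOne Cardinal Topology

universe u v w

/-- The Banach space `X` is isomorphic to a (closed) subspace of `Y`: there is a bounded linear
operator from `X` to `Y` that is bounded below. -/
def Emb (X : Type v) (Y : Type w) [NormedAddCommGroup X] [NormedSpace ℝ X]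
    [NormedAddCommGroup Y] [NormedSpace ℝ Y] : Prop :=
  ∃ (T : X →L[ℝ] Y) (c : ℝ), 0 < c ∧ ∀ x, c * ‖x‖ ≤ ‖T x‖

section general

variable {X : Type u} {Y : Type v} [NormedAddCommGroup X] [NormedSpace ℝ X]
  [NormedAddCommGroup Y] [NormedSpace ℝ Y]

theorem Emb.trans {Z : Type w} [NormedAddCommGroup Z] [NormedSpace ℝ Z] (h : Emb X Y)
    (h' : Emb Y Z) : Emb X Z := by
  obtain ⟨T, c, hc, hT⟩ := h
  obtain ⟨S, d, hd, hS⟩ := h'
  refine ⟨S.comp T, d * c, by positivity, fun x => ?_⟩
  calc d * c * ‖x‖ = d * (c * ‖x‖) := by ring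
    _ ≤ d * ‖T x‖ := mul_le_mul_of_nonneg_left (hT x) hd.le
    _ ≤ ‖S (T x)‖ := hS _

theorem emb_of_equiv (e : X ≃L[ℝ] Y) : Emb X Y := by
  have hK0 : 0 < ‖(e.symm : Y →L[ℝ] X)‖ + 1 := by positivity
  refine ⟨e, (‖(e.symm : Y →L[ℝ] X)‖ + 1)⁻¹, inv_pos.mpr hK0, fun x => ?_⟩
  have h1 : ‖x‖ ≤ (‖(e.symm : Y →L[ℝ] X)‖ + 1) * ‖e x‖ := by
    have h2 := (e.symm : Y →L[ℝ] X).le_opNorm (e x)
    have h3 : (e.symm : Y →L[ℝ] X) (e x) = x := e.symm_apply_apply x
    rw [h3] at h2
    refine h2.trans (mul_le_mul_of_nonneg_right ?_ (norm_nonneg _))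
    linarith
  calc (‖(e.symm : Y →L[ℝ] X)‖ + 1)⁻¹ * ‖x‖
      ≤ (‖(e.symm : Y →L[ℝ] X)‖ + 1)⁻¹ * ((‖(e.symm : Y →L[ℝ] X)‖ + 1) * ‖e x‖) :=
        mul_le_mul_of_nonneg_left h1 (inv_pos.mpr hK0).le
    _ = ‖e x‖ := by rw [inv_mul_cancel_left₀ hK0.ne']

end general

section pre

variable {K : Type u} {L : Type v} [TopologicalSpace K] [TopologicalSpace L] [CompactSpace K]
  [CompactSpace L]

/-- composition with a continuous map -/
def pre (F : C(K, L)) : C(L, ℝ) →L[ℝ] C(K, ℝ) where
  toFun := fun g => g.comp F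
  map_add' := fun f g => by ext x; rfl
  map_smul' := fun r f => by ext x; rfl
  cont := ContinuousMap.continuous_precomp F

omit [CompactSpace K] [CompactSpace L] in
theorem pre_apply (F : C(K, L)) (g : C(L, ℝ)) (x : K) : pre F g x = g (F x) := rfl

theorem emb_of_surj (F : C(K, L)) (hF : Function.Surjective F) :
    Emb C(L, ℝ) C(K, ℝ) := by
  refine ⟨pre F, 1, one_pos, fun g => ?_⟩
  rw [one_mul]
  refine (ContinuousMap.norm_le _ (norm_nonneg _)).mpr fun x => ?_
  obtain ⟨y, rfl⟩ := hF x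
  exact (pre F g).norm_coe_le_norm y

end pre

section dense

variable {K : Type u} [TopologicalSpace K] [CompactSpace K]

/-- A family of functions that separates the points generates a dense subset of `C(K)` of the
same cardinality (or a countable one). -/
theorem exists_dense (S : Set C(K, ℝ)) (hS : ∀ x y : K, x ≠ y → ∃ f ∈ S, f x ≠ f y) :
    ∃ D : Set C(K, ℝ), Dense D ∧ #D ≤ max #S ℵ₀ := by
  let A : Subalgebra ℚ C(K, ℝ) := Algebra.adjoin ℚ S
  have hconst : ∀ r : ℝ, algebraMap ℝ C(K, ℝ) r ∈ closure (A : Set C(K, ℝ)) := by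
    intro r
    have hcont : Continuous (fun r : ℝ => algebraMap ℝ C(K, ℝ) r) := by
      have : (fun r : ℝ => algebraMap ℝ C(K, ℝ) r) = fun r : ℝ => r • (1 : C(K, ℝ)) := by
        funext r
        rw [Algebra.algebraMap_eq_smul_one]
      rw [this]
      exact continuous_id.smul continuous_const
    have hr : r ∈ closure (Set.range ((↑) : ℚ → ℝ)) := Rat.isDenseEmbedding_coe_real.dense r
    have h1 := map_mem_closure hcont hr (t := (A : Set C(K, ℝ))) (by
      rintro _ ⟨q, rfl⟩
      have h2 : algebraMap ℝ C(K, ℝ) (q : ℝ) = algebraMap ℚ C(K, ℝ) q := by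
        ext x
        rfl
      change algebraMap ℝ C(K, ℝ) (q : ℝ) ∈ A
      rw [h2]
      exact A.algebraMap_mem q)
    exact h1
  let B : Subalgebra ℝ C(K, ℝ) :=
    { carrier := closure (A : Set C(K, ℝ))
      mul_mem' := fun {a b} ha hb => map_mem_closure₂ continuous_mul ha hb
        fun a ha b hb => A.mul_mem ha hb
      add_mem' := fun {a b} ha hb => map_mem_closure₂ continuous_add ha hb
        fun a ha b hb => A.add_mem ha hb
      algebraMap_mem' := hconst }
  have hsep : B.SeparatesPoints := by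
    intro x y hxy
    obtain ⟨f, hf, hne⟩ := hS x y hxy
    exact ⟨f, ⟨f, subset_closure (Algebra.subset_adjoin hf), rfl⟩, hne⟩
  have htop := ContinuousMap.subalgebra_topologicalClosure_eq_top_of_separatesPoints B hsep
  refine ⟨(A : Set C(K, ℝ)), fun f => ?_, ?_⟩
  · have h1 : f ∈ B.topologicalClosure := by
      rw [htop]
      trivial
    have h2 : f ∈ closure (closure (A : Set C(K, ℝ))) := h1
    rwa [closure_closure] at h2
  · have h1 := Algebra.lift_cardinalMk_adjoin_le ℚ S
    rw [Cardinal.lift_uzero, Cardinal.lift_uzero, Cardinal.mk_eq_aleph0 ℚ, lift_aleph0] at h1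
    exact h1.trans (sup_le (sup_le le_sup_right le_sup_left) le_sup_right)

end dense

end Pool.Agent.Y320.BP
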