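import Pool.Agent.Y320.BP.Band
import Pool.Agent.Helper358.Prod

/-!
`B(κ) × [0,1]^ℕ` is homeomorphic to `B(κ)`.

The explicit map `[0,1]^ℕ × B⁺(ℕ ⊔ α) → B⁺(ℕ ⊔ ℕ ⊔ α)` sends `(p, z)` to `(s, t, w)` with
`s n = p n (ε n + (1 - σ) z n)`, `t n = (1 - p n) (1 - σ) z n`, `w k = (1 - σ) z k`, where
`σ = ∑ ε n p n` and `ε n = 2^(-n-2)`.
-/

set_option autoImplicit false

namespace Pool.Agent.Y320.BP

open Pool.Agent.Helper358.LOne Pool.Agent.Helper358.Box Cardinal Topology Finset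

universe u v w

/-- Solution of `p (ε + u) = s`, `(1 - p) u = t`. -/
theorem solve {ε s t : ℝ} (hε : 0 < ε) (hs : 0 ≤ s) (ht : 0 ≤ t) :
    ∃ p u : ℝ, 0 ≤ p ∧ p ≤ 1 ∧ 0 ≤ u ∧ p * (ε + u) = s ∧ (1 - p) * u = t := by
  rcases ht.eq_or_lt with h0 | h0
  · rcases le_or_gt ε s with h1 | h1
    · exact ⟨1, s - ε, zero_le_one, le_rfl, by linarith, by ring, by rw [← h0]; ring⟩
    · refine ⟨s / ε, 0, by positivity, ?_, le_rfl, ?_, by rw [← h0]; ring⟩
      · rw [div_le_one hε]; exact h1.le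
      · rw [add_zero, div_mul_cancel₀ _ hε.ne']
  · have hcont : ContinuousOn (fun p : ℝ => (1 - p) * (s + t - p * ε) - t) (Set.Icc 0 1) := by
      fun_prop
    have h1 := intermediate_value_Icc' (zero_le_one' ℝ) hcont
    have h2 : (0 : ℝ) ∈ Set.Icc ((fun p : ℝ => (1 - p) * (s + t - p * ε) - t) 1)
        ((fun p : ℝ => (1 - p) * (s + t - p * ε) - t) 0) := by
      constructor
      · simp only; linarith
      · simp only; linarith
    obtain ⟨p, ⟨hp0, hp1⟩, hp⟩ := h1 h2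
    simp only at hp
    have hne : p ≠ 1 := by
      rintro rfl
      linarith
    have hlt : 0 < 1 - p := by
      have := lt_of_le_of_ne hp1 hne
      linarith
    have hu : (1 - p) * (s + t - p * ε) = t := by linarith
    have hu0 : 0 ≤ s + t - p * ε := by
      by_contra hneg
      push Not at hneg
      have := mul_neg_of_pos_of_neg hlt hneg
      linarith
    exact ⟨p, s + t - p * ε, hp0, hp1, hu0, by linarith, hu⟩

theorem solve_unique_aux {ε p u p' u' : ℝ} (hε : 0 < ε) (hp1' : p' ≤ 1) (hu' : 0 ≤ u')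
    (h1 : p * (ε + u) = p' * (ε + u')) (h2 : (1 - p) * u = (1 - p') * u') : ¬ p < p' := by
  intro hlt
  have h3 : u - u' = (p' - p) * ε := by linarith
  have h4 : 0 < (p' - p) * ε := mul_pos (by linarith) hε
  have h5 : 0 < u := by linarith
  have h6 : (1 - p') * u < (1 - p) * u := mul_lt_mul_of_pos_right (by linarith) h5
  have h7 : (1 - p') * u' ≤ (1 - p') * u := mul_le_mul_of_nonneg_left (by linarith) (by linarith)
  linarith

theorem solve_unique {ε p u p' u' : ℝ} (hε : 0 < ε) (hp1 : p ≤ 1) (hp1' : p' ≤ 1) (hu : 0 ≤ u)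
    (hu' : 0 ≤ u') (h1 : p * (ε + u) = p' * (ε + u')) (h2 : (1 - p) * u = (1 - p') * u') :
    p = p' ∧ u = u' := by
  have hp : p = p' := le_antisymm (not_lt.mp (solve_unique_aux hε hp1 hu h1.symm h2.symm))
    (not_lt.mp (solve_unique_aux hε hp1' hu' h1 h2))
  refine ⟨hp, ?_⟩
  subst hp
  linarith

/-- the weights -/
noncomputable def ep (n : ℕ) : ℝ := (1 / 2) ^ (n + 2)

theorem ep_pos (n : ℕ) : 0 < ep n := by unfold ep; positivity

theorem summable_ep : Summable ep := by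
  unfold ep
  exact (summable_nat_add_iff 2).mpr (summable_geometric_of_lt_one (by norm_num) (by norm_num))

theorem tsum_ep : ∑' n, ep n = 1 / 2 := by
  have h : ∀ n, ep n = (1 / 4) * (1 / 2) ^ n := fun n => by unfold ep; rw [pow_add]; ring
  simp_rw [h]
  rw [tsum_mul_left, tsum_geometric_of_lt_one (by norm_num) (by norm_num)]
  norm_num

/-- the unit interval -/
abbrev II : Type := Set.Icc (0 : ℝ) 1

/-- the total shift -/
noncomputable def sg (p : ℕ → II) : ℝ := ∑' n, ep n * (p n : ℝ)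

theorem summable_sg (p : ℕ → II) : Summable fun n => ep n * (p n : ℝ) := by
  refine Summable.of_nonneg_of_le (fun n => mul_nonneg (ep_pos n).le (p n).2.1) (fun n => ?_)
    summable_ep
  exact mul_le_of_le_one_right (ep_pos n).le (p n).2.2

theorem sg_nonneg (p : ℕ → II) : 0 ≤ sg p :=
  tsum_nonneg fun n => mul_nonneg (ep_pos n).le (p n).2.1

theorem sg_le (p : ℕ → II) : sg p ≤ 1 / 2 := by
  rw [← tsum_ep]
  exact (summable_sg p).tsum_le_tsum (fun n => mul_le_of_le_one_right (ep_pos n).le (p n).2.2)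
    summable_ep

theorem continuous_sg : Continuous sg := by
  unfold sg
  refine continuous_tsum (u := ep) (fun n => ?_) summable_ep fun n p => ?_
  · exact continuous_const.mul (continuous_subtype_val.comp (continuous_apply n))
  · rw [Real.norm_eq_abs, abs_of_nonneg (mul_nonneg (ep_pos n).le (p n).2.1)]
    exact mul_le_of_le_one_right (ep_pos n).le (p n).2.2

theorem sum_le_sg (p : ℕ → II) (T : Finset ℕ) : ∑ n ∈ T, ep n * (p n : ℝ) ≤ sg p :=
  (summable_sg p).sum_le_tsum T fun n _ => mul_nonneg (ep_pos n).le (p n).2.1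

section sums

variable {α : Type u}

theorem mem_Pos_one (y : ℕ ⊕ α → ℝ) (hy : ∀ i, 0 ≤ y i) :
    y ∈ Pos (ℕ ⊕ α) ↔ ∀ (T : Finset ℕ) (A : Finset α),
      ∑ n ∈ T, y (Sum.inl n) + ∑ k ∈ A, y (Sum.inr k) ≤ 1 := by
  constructor
  · intro h T A
    have h1 := h.2 (T.disjSum A)
    rw [Finset.sum_disjSum] at h1
    simpa only [abs_of_nonneg (hy _)] using h1
  · intro h
    refine ⟨hy, fun S => ?_⟩
    rw [← Finset.toLeft_disjSum_toRight (u := S), Finset.sum_disjSum]
    simpa only [abs_of_nonneg (hy _)] using h S.toLeft S.toRight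

theorem mem_Pos_two (y : (ℕ ⊕ ℕ) ⊕ α → ℝ) (hy : ∀ i, 0 ≤ y i) :
    y ∈ Pos ((ℕ ⊕ ℕ) ⊕ α) ↔ ∀ (T : Finset ℕ) (A : Finset α),
      ∑ n ∈ T, (y (Sum.inl (Sum.inl n)) + y (Sum.inl (Sum.inr n))) +
        ∑ k ∈ A, y (Sum.inr k) ≤ 1 := by
  classical
  constructor
  · intro h T A
    have h1 := h.2 ((T.disjSum T).disjSum A)
    rw [Finset.sum_disjSum, Finset.sum_disjSum] at h1
    rw [Finset.sum_add_distrib]
    simpa only [abs_of_nonneg (hy _)] using h1
  · intro h
    refine ⟨hy, fun S => ?_⟩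
    have h1 := h (S.toLeft.toLeft ∪ S.toLeft.toRight) S.toRight
    rw [← Finset.toLeft_disjSum_toRight (u := S), Finset.sum_disjSum,
      ← Finset.toLeft_disjSum_toRight (u := S.toLeft), Finset.sum_disjSum]
    simp only [abs_of_nonneg (hy _)]
    rw [Finset.sum_add_distrib] at h1
    have h2 : ∑ n ∈ S.toLeft.toLeft, y (Sum.inl (Sum.inl n)) ≤
        ∑ n ∈ S.toLeft.toLeft ∪ S.toLeft.toRight, y (Sum.inl (Sum.inl n)) :=
      Finset.sum_le_sum_of_subset_of_nonneg Finset.subset_union_left fun _ _ _ => hy _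
    have h3 : ∑ n ∈ S.toLeft.toRight, y (Sum.inl (Sum.inr n)) ≤
        ∑ n ∈ S.toLeft.toLeft ∪ S.toLeft.toRight, y (Sum.inl (Sum.inr n)) :=
      Finset.sum_le_sum_of_subset_of_nonneg Finset.subset_union_right fun _ _ _ => hy _
    linarith

end sums

end Pool.Agent.Y320.BP
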