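import Pool.Agent.Y320.BP.Cube

set_option autoImplicit false

namespace Pool.Agent.Y320.BP

open Pool.Agent.Helper358.LOne Pool.Agent.Helper358.Box Cardinal Topology Finset

universe u v w

variable {α : Type u}

/-- the underlying function of the map that splits off a Hilbert cube -/
noncomputable def GF (p : ℕ → II) (z : ℕ ⊕ α → ℝ) : (ℕ ⊕ ℕ) ⊕ α → ℝ
  | Sum.inl (Sum.inl n) => (p n : ℝ) * (ep n + (1 - sg p) * z (Sum.inl n))
  | Sum.inl (Sum.inr n) => (1 - (p n : ℝ)) * ((1 - sg p) * z (Sum.inl n))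
  | Sum.inr k => (1 - sg p) * z (Sum.inr k)

theorem GF_nonneg (p : ℕ → II) (z : ℕ ⊕ α → ℝ) (hz : ∀ i, 0 ≤ z i) (i) : 0 ≤ GF p z i := by
  have hs : 0 ≤ 1 - sg p := by linarith [sg_le p]
  rcases i with (n | n) | k
  · exact mul_nonneg (p n).2.1 (add_nonneg (ep_pos n).le (mul_nonneg hs (hz _)))
  · exact mul_nonneg (by linarith [(p n).2.2]) (mul_nonneg hs (hz _))
  · exact mul_nonneg hs (hz _)

theorem GF_mem (p : ℕ → II) (z : ℕ ⊕ α → ℝ) (hz : z ∈ Pos (ℕ ⊕ α)) :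
    GF p z ∈ Pos ((ℕ ⊕ ℕ) ⊕ α) := by
  have hs : 0 ≤ 1 - sg p := by linarith [sg_le p]
  rw [mem_Pos_two _ (GF_nonneg p z hz.1)]
  intro T A
  have h1 := (mem_Pos_one z hz.1).mp hz T A
  have h2 := sum_le_sg p T
  have h3 : ∑ n ∈ T, (GF p z (Sum.inl (Sum.inl n)) + GF p z (Sum.inl (Sum.inr n))) =
      ∑ n ∈ T, ep n * (p n : ℝ) + (1 - sg p) * ∑ n ∈ T, z (Sum.inl n) := by
    rw [Finset.mul_sum, ← Finset.sum_add_distrib]
    refine Finset.sum_congr rfl fun n _ => ?_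
    simp only [GF]
    ring
  have h4 : ∑ k ∈ A, GF p z (Sum.inr k) = (1 - sg p) * ∑ k ∈ A, z (Sum.inr k) := by
    rw [Finset.mul_sum]
    rfl
  rw [h3, h4]
  have h5 : (1 - sg p) * (∑ n ∈ T, z (Sum.inl n) + ∑ k ∈ A, z (Sum.inr k)) ≤ (1 - sg p) * 1 :=
    mul_le_mul_of_nonneg_left h1 hs
  linarith

/-- the map that splits off a Hilbert cube -/
noncomputable def G (q : (ℕ → II) × Pos (ℕ ⊕ α)) : Pos ((ℕ ⊕ ℕ) ⊕ α) :=
  ⟨GF q.1 q.2.1, GF_mem q.1 q.2.1 q.2.2⟩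

theorem continuous_G : Continuous (G : (ℕ → II) × Pos (ℕ ⊕ α) → Pos ((ℕ ⊕ ℕ) ⊕ α)) := by
  refine Continuous.subtype_mk (continuous_pi fun i => ?_) _
  have hs : Continuous fun q : (ℕ → II) × Pos (ℕ ⊕ α) => sg q.1 := continuous_sg.comp continuous_fst
  have hp : ∀ n, Continuous fun q : (ℕ → II) × Pos (ℕ ⊕ α) => (q.1 n : ℝ) := fun n =>
    continuous_subtype_val.comp ((continuous_apply n).comp continuous_fst)
  have hz : ∀ j, Continuous fun q : (ℕ → II) × Pos (ℕ ⊕ α) => q.2.1 j := fun j =>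
    (continuous_apply j).comp (continuous_subtype_val.comp continuous_snd)
  rcases i with (n | n) | k
  · exact (hp n).mul (continuous_const.add ((continuous_const.sub hs).mul (hz _)))
  · exact (continuous_const.sub (hp n)).mul ((continuous_const.sub hs).mul (hz _))
  · exact (continuous_const.sub hs).mul (hz _)

theorem injective_G :
    Function.Injective (G : (ℕ → II) × Pos (ℕ ⊕ α) → Pos ((ℕ ⊕ ℕ) ⊕ α)) := by
  rintro ⟨p, z⟩ ⟨p', z'⟩ h
  have hF : GF p z.1 = GF p' z'.1 := congrArg Subtype.val h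
  have hs : 0 < 1 - sg p := by linarith [sg_le p]
  have hs' : 0 < 1 - sg p' := by linarith [sg_le p']
  have h1 : ∀ n, (p n : ℝ) = p' n ∧
      (1 - sg p) * z.1 (Sum.inl n) = (1 - sg p') * z'.1 (Sum.inl n) := fun n =>
    solve_unique (ep_pos n) (p n).2.2 (p' n).2.2 (mul_nonneg hs.le (z.2.1 _))
      (mul_nonneg hs'.le (z'.2.1 _)) (congrFun hF (Sum.inl (Sum.inl n)))
      (congrFun hF (Sum.inl (Sum.inr n)))
  have hp : p = p' := funext fun n => Subtype.ext (h1 n).1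
  subst hp
  have hz : z = z' := by
    apply Subtype.ext
    funext i
    rcases i with n | k
    · exact mul_left_cancel₀ hs.ne' (h1 n).2
    · exact mul_left_cancel₀ hs.ne' (congrFun hF (Sum.inr k))
  rw [hz]

theorem surjective_G :
    Function.Surjective (G : (ℕ → II) × Pos (ℕ ⊕ α) → Pos ((ℕ ⊕ ℕ) ⊕ α)) := by
  classical
  rintro ⟨y, hy⟩
  choose p u hp0 hp1 hu0 h1 h2 using fun n => solve (ep_pos n) (hy.1 (Sum.inl (Sum.inl n)))
    (hy.1 (Sum.inl (Sum.inr n)))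
  let P : ℕ → II := fun n => ⟨p n, hp0 n, hp1 n⟩
  have hs : 0 < 1 - sg P := by linarith [sg_le P]
  have hsum : ∀ (T : Finset ℕ) (A : Finset α),
      ∑ n ∈ T, u n + ∑ k ∈ A, y (Sum.inr k) ≤ 1 - sg P := by
    intro T A
    have h3 : sg P ≤ 1 - (∑ n ∈ T, u n + ∑ k ∈ A, y (Sum.inr k)) := by
      refine (summable_sg P).tsum_le_of_sum_le fun T' => ?_
      have h4 := (mem_Pos_two y hy.1).mp hy (T' ∪ T) A
      have h5 : ∑ n ∈ T' ∪ T, (y (Sum.inl (Sum.inl n)) + y (Sum.inl (Sum.inr n))) =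
          ∑ n ∈ T' ∪ T, ep n * (P n : ℝ) + ∑ n ∈ T' ∪ T, u n := by
        rw [← Finset.sum_add_distrib]
        refine Finset.sum_congr rfl fun n _ => ?_
        rw [← h1 n, ← h2 n]
        change p n * (ep n + u n) + (1 - p n) * u n = ep n * p n + u n
        ring
      have h6 : ∑ n ∈ T', ep n * (P n : ℝ) ≤ ∑ n ∈ T' ∪ T, ep n * (P n : ℝ) :=
        Finset.sum_le_sum_of_subset_of_nonneg Finset.subset_union_left
          fun n _ _ => mul_nonneg (ep_pos n).le (P n).2.1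
      have h7 : ∑ n ∈ T, u n ≤ ∑ n ∈ T' ∪ T, u n :=
        Finset.sum_le_sum_of_subset_of_nonneg Finset.subset_union_right fun n _ _ => hu0 n
      linarith
    linarith
  let z : ℕ ⊕ α → ℝ := Sum.elim (fun n => u n / (1 - sg P)) (fun k => y (Sum.inr k) / (1 - sg P))
  have hz0 : ∀ i, 0 ≤ z i := by
    rintro (n | k)
    · exact div_nonneg (hu0 n) hs.le
    · exact div_nonneg (hy.1 _) hs.le
  have hz : z ∈ Pos (ℕ ⊕ α) := by
    rw [mem_Pos_one z hz0]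
    intro T A
    change ∑ n ∈ T, u n / (1 - sg P) + ∑ k ∈ A, y (Sum.inr k) / (1 - sg P) ≤ 1
    rw [← Finset.sum_div, ← Finset.sum_div, ← add_div, div_le_one hs]
    exact hsum T A
  refine ⟨(P, ⟨z, hz⟩), Subtype.ext (funext fun i => ?_)⟩
  rcases i with (n | n) | k
  · change p n * (ep n + (1 - sg P) * (u n / (1 - sg P))) = _
    rw [mul_div_cancel₀ _ hs.ne', h1 n]
  · change (1 - p n) * ((1 - sg P) * (u n / (1 - sg P))) = _
    rw [mul_div_cancel₀ _ hs.ne', h2 n]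
  · change (1 - sg P) * (y (Sum.inr k) / (1 - sg P)) = _
    rw [mul_div_cancel₀ _ hs.ne']

/-- The positive part absorbs the Hilbert cube. -/
theorem Pos_cube (κ : Type u) [Infinite κ] : Nonempty (Pos κ ≃ₜ Pos κ × (ℕ → II)) := by
  have hcard : ∀ γ : Type, Countable γ → Nonempty (γ ⊕ κ ≃ κ) := by
    intro γ hγ
    have h0 : ℵ₀ ≤ #κ := Cardinal.infinite_iff.1 inferInstance
    rw [← Cardinal.eq, mk_sum, lift_uzero]
    exact Cardinal.add_eq_right h0 ((lift_le_aleph0.mpr mk_le_aleph0).trans h0)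
  obtain ⟨e1⟩ := hcard ℕ inferInstance
  obtain ⟨e2⟩ := hcard (ℕ ⊕ ℕ) inferInstance
  obtain ⟨h1⟩ := Pool.Agent.Helper358.Prod.Pos_reindex e1
  obtain ⟨h2⟩ := Pool.Agent.Helper358.Prod.Pos_reindex e2
  have : CompactSpace (Pos (ℕ ⊕ κ)) := isCompact_iff_compactSpace.mp (isCompact_Pos _)
  let h3 : (ℕ → II) × Pos (ℕ ⊕ κ) ≃ₜ Pos ((ℕ ⊕ ℕ) ⊕ κ) :=
    Continuous.homeoOfEquivCompactToT2 (f := Equiv.ofBijective G ⟨injective_G, surjective_G⟩)
      continuous_G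
  exact ⟨(h2.symm.trans h3.symm).trans
    (((Homeomorph.refl _).prodCongr h1).trans (Homeomorph.prodComm _ _))⟩

end Pool.Agent.Y320.BP
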