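import Pool.Agent.Y320.BP.Base

set_option autoImplicit false

namespace Pool.Agent.Y320.BP

open Pool.Agent.Helper358.LOne Cardinal Topology

universe u v w

/-- A continuous function depends on countably many coordinates. -/
lemma exists_countable_support {Λ : Type u} {m : ℕ} (f : C(Fin m → Ball Λ, ℝ)) :
    ∃ P : Set Λ, P.Countable ∧ ∀ z z' : Fin m → Ball Λ,
      (∀ k, ∀ γ ∈ P, (z k).1 γ = (z' k).1 γ) → f z = f z' := by
  choose P hP using fun k : ℕ => exists_support f (ε := 1 / ((k : ℝ) + 1)) (by positivity)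
  refine ⟨⋃ k, (P k : Set Λ), Set.countable_iUnion fun k => (P k).countable_toSet,
    fun z z' h => ?_⟩
  have h1 : ∀ k : ℕ, |f z - f z'| ≤ 1 / ((k : ℝ) + 1) := fun k =>
    hP k z z' fun j γ hγ => h j γ (Set.mem_iUnion.mpr ⟨k, hγ⟩)
  have h2 : |f z - f z'| ≤ 0 :=
    ge_of_tendsto' tendsto_one_div_add_atTop_nhds_zero_nat h1
  have h3 : f z - f z' = 0 := abs_eq_zero.mp (le_antisymm h2 (abs_nonneg _))
  linarith

lemma continuous_res {α Γ : Type u} (E : α → Γ) (hE : Function.Injective E) :
    Continuous (res E hE) := by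
  refine Continuous.subtype_mk ?_ _
  exact continuous_pi fun a => (continuous_apply (E a)).comp continuous_subtype_val

/-- extension by zero along an injective map -/
noncomputable def extI {α Γ : Type u} (E : α → Γ) (hE : Function.Injective E) (x : Ball α) :
    Ball Γ :=
  ⟨Function.extend E x.1 0, by
    intro F
    have h1 := Finset.sum_preimage E F hE.injOn
      (fun γ => |Function.extend E x.1 (0 : Γ → ℝ) γ|) (by
      intro γ _ hγ
      have h2 : Function.extend E x.1 (0 : Γ → ℝ) γ = 0 := Function.extend_apply' x.1 (0 : Γ → ℝ) γ hγ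
      rw [h2, abs_zero])
    rw [← h1]
    simp only [hE.extend_apply]
    exact x.2 _⟩

lemma extI_apply {α Γ : Type u} (E : α → Γ) (hE : Function.Injective E) (x : Ball α) (a : α) :
    (extI E hE x).1 (E a) = x.1 a := hE.extend_apply _ _ _

lemma continuous_extI {α Γ : Type u} (E : α → Γ) (hE : Function.Injective E) :
    Continuous (extI E hE) := by
  refine Continuous.subtype_mk ?_ _
  refine continuous_pi fun γ => ?_
  by_cases h : ∃ a, E a = γ
  · obtain ⟨a, rfl⟩ := h
    have : (fun x : Ball α => Function.extend E x.1 (0 : Γ → ℝ) (E a)) = fun x => x.1 a := by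
      funext x
      exact hE.extend_apply _ _ _
    rw [this]
    exact (continuous_apply a).comp continuous_subtype_val
  · have : (fun x : Ball α => Function.extend E x.1 (0 : Γ → ℝ) γ) = fun _ => 0 := by
      funext x
      exact Function.extend_apply' x.1 (0 : Γ → ℝ) γ h
    rw [this]
    exact continuous_const

lemma res_extI {α Γ : Type u} (E : α → Γ) (hE : Function.Injective E) (v : Ball α) :
    res E hE (extI E hE v) = v := by
  apply Subtype.ext
  funext a
  exact extI_apply E hE v a

/-- **Reduction of the index set of the range.** If `Y` has density character at most `κ` and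
embeds into `C(B(Λ)^m)`, then it embeds into `C(B(κ)^m)`. -/
theorem reduce {Y : Type u} [NormedAddCommGroup Y] [NormedSpace ℝ Y] {κ Λ : Type u}
    (hκ : ℵ₀ ≤ #κ) (D : Set Y) (hD : Dense D) (hDc : #D ≤ #κ) {m : ℕ}
    (h : Emb Y C(Fin m → Ball Λ, ℝ)) : Emb Y C(Fin m → Ball κ, ℝ) := by
  obtain ⟨T, c, hc, hT⟩ := h
  choose P hPc hP using fun y => exists_countable_support (T y)
  let L : Set Λ := ⋃ d : D, P d
  have hL : #L ≤ #κ := by
    refine (mk_iUnion_le _).trans ?_
    refine (mul_le_mul' hDc (ciSup_le' fun d : D => (hPc d).le_aleph0)).trans ?_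
    exact (mul_le_mul' le_rfl hκ).trans (mul_eq_self hκ).le
  have hdep : ∀ y, ∀ z z' : Fin m → Ball Λ, (∀ k, ∀ γ ∈ L, (z k).1 γ = (z' k).1 γ) →
      T y z = T y z' := by
    intro y z z' hz
    have hcl : IsClosed {y | T y z = T y z'} := by
      refine isClosed_eq ?_ ?_
      · exact (continuous_eval_const z).comp T.continuous
      · exact (continuous_eval_const z').comp T.continuous
    have hsub : D ⊆ {y | T y z = T y z'} := by
      intro d hd
      exact hP d z z' fun k γ hγ => hz k γ (Set.mem_iUnion.mpr ⟨⟨d, hd⟩, hγ⟩)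
    exact (hcl.closure_subset_iff.mpr hsub) (hD y)
  obtain ⟨E⟩ : Nonempty (L ↪ κ) := hL
  let V : L → Λ := Subtype.val
  have hV : Function.Injective V := Subtype.val_injective
  let F : C(Fin m → Ball κ, Fin m → Ball Λ) :=
    ⟨fun z k => extI V hV (res E E.injective (z k)), continuous_pi fun k =>
      (continuous_extI V hV).comp ((continuous_res E E.injective).comp (continuous_apply k))⟩
  refine ⟨(pre F).comp T, c, hc, fun y => (hT y).trans ?_⟩
  refine (ContinuousMap.norm_le _ (norm_nonneg _)).mpr fun z => ?_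
  let w : Fin m → Ball κ := fun k => extI E E.injective (res V hV (z k))
  have h1 : T y z = (pre F).comp T y w := by
    change T y z = T y (F w)
    refine hdep y _ _ fun k γ hγ => ?_
    change (z k).1 γ = (extI V hV (res E E.injective (extI E E.injective (res V hV (z k))))).1 γ
    rw [res_extI]
    exact (extI_apply V hV (res V hV (z k)) ⟨γ, hγ⟩).symm
  rw [h1]
  exact ContinuousMap.norm_coe_le_norm _ _

/-- the coordinate functions on a power of the ball -/
def crd {I : Type} {κ : Type u} (i : I) (a : κ) : C(I → Ball κ, ℝ) where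
  toFun x := (x i).1 a
  continuous_toFun := (continuous_apply a).comp (continuous_subtype_val.comp (continuous_apply i))

lemma unit_ne {κ : Type u} {a b : κ} (h : a ≠ b) : (unit a).1 b = 0 := by
  classical
  change extF (fun _ : Unit => a) (fun _ => 1) b = 0
  unfold extF
  simp [h]

/-- The density character of `C(B(κ)^I)` is at least `κ`, even for spaces in which it embeds. -/
theorem card_le_of_emb {κ : Type u} {I : Type} (i0 : I) {Y : Type u} [NormedAddCommGroup Y]
    [NormedSpace ℝ Y] (D : Set Y) (hD : Dense D) (h : Emb C(I → Ball κ, ℝ) Y) : #κ ≤ #D := by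
  obtain ⟨T, c, hc, hT⟩ := h
  have h1 : ∀ a : κ, ∃ d ∈ D, dist (T (crd i0 a)) d < c / 2 := fun a =>
    Metric.mem_closure_iff.mp (hD _) _ (half_pos hc)
  choose d hdD hd using h1
  refine mk_le_of_injective (f := fun a => (⟨d a, hdD a⟩ : D)) ?_
  intro a b hab
  by_contra hne
  have h2 : d a = d b := congrArg Subtype.val hab
  have h3 : dist (T (crd i0 a)) (T (crd i0 b)) < c := by
    have h4 := dist_triangle_right (T (crd i0 a)) (T (crd i0 b)) (d a)
    have h5 := hd a
    have h6 := hd b
    rw [← h2] at h6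
    linarith
  have h4 : (1 : ℝ) ≤ ‖crd (I := I) i0 a - crd i0 b‖ := by
    have h5 := ContinuousMap.norm_coe_le_norm (crd (I := I) i0 a - crd i0 b) (fun _ => unit a)
    have h6 : (crd (I := I) i0 a - crd i0 b) (fun _ => unit a) = 1 := by
      change (unit a).1 a - (unit a).1 b = 1
      rw [unit_self, unit_ne hne, sub_zero]
    rw [h6, norm_one] at h5
    exact h5
  have h5 := hT (crd i0 a - crd i0 b)
  rw [map_sub] at h5
  rw [dist_eq_norm] at h3
  nlinarith

/-- A dense subset of `C(B(κ)^I)`, `I` countable. -/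
theorem exists_dense_ball (I : Type) [Countable I] (κ : Type u) :
    ∃ D : Set C(I → Ball κ, ℝ), Dense D ∧ #D ≤ max #κ ℵ₀ := by
  obtain ⟨D, hD, hDc⟩ := exists_dense (K := I → Ball κ)
    (Set.range fun p : I × κ => crd p.1 p.2) (by
      intro x y hxy
      obtain ⟨i, hi⟩ := Function.ne_iff.mp hxy
      have h1 : (x i).1 ≠ (y i).1 := fun h => hi (Subtype.ext h)
      obtain ⟨a, ha⟩ := Function.ne_iff.mp h1
      exact ⟨crd i a, ⟨(i, a), rfl⟩, ha⟩)
  refine ⟨D, hD, hDc.trans (max_le ?_ (le_max_right _ _))⟩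
  refine mk_range_le.trans ?_
  rw [mk_prod, lift_id']
  refine (mul_le_mul' (?_ : lift.{u} #I ≤ max #κ ℵ₀) (le_max_left #κ ℵ₀)).trans
    (mul_eq_self (le_max_right _ _)).le
  refine le_trans ?_ (le_max_right _ _)
  rw [lift_le_aleph0]
  exact mk_le_aleph0

/-- A dense subset of `C(A(κ)^ω)`. -/
theorem exists_dense_one (κ : Type u) [TopologicalSpace κ] [DiscreteTopology κ] :
    ∃ D : Set C(ℕ → OnePoint κ, ℝ), Dense D ∧ #D ≤ max #κ ℵ₀ := by
  classical
  obtain ⟨D, hD, hDc⟩ := exists_dense (K := ℕ → OnePoint κ)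
    (Set.range fun p : ℕ × κ => indA p.1 p.2) (by
      have key : ∀ (x y : ℕ → OnePoint κ) (n : ℕ) (a : κ), x n = (a : OnePoint κ) →
          x n ≠ y n → indA n a x ≠ indA n a y := by
        intro x y n a hx hxy
        change (if x n = (a : OnePoint κ) then (1 : ℝ) else 0) ≠
          (if y n = (a : OnePoint κ) then (1 : ℝ) else 0)
        rw [if_pos hx, if_neg (fun h => hxy (hx.trans h.symm))]
        norm_num
      intro x y hxy
      obtain ⟨n, hn⟩ := Function.ne_iff.mp hxy
      by_cases hx : x n = OnePoint.infty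
      · have hy : y n ≠ OnePoint.infty := fun h => hn (hx.trans h.symm)
        obtain ⟨a, ha⟩ := OnePoint.ne_infty_iff_exists.mp hy
        exact ⟨indA n a, ⟨(n, a), rfl⟩, (key y x n a ha.symm (Ne.symm hn)).symm⟩
      · obtain ⟨a, ha⟩ := OnePoint.ne_infty_iff_exists.mp hx
        exact ⟨indA n a, ⟨(n, a), rfl⟩, key x y n a ha.symm hn⟩)
  refine ⟨D, hD, hDc.trans (max_le ?_ (le_max_right _ _))⟩
  refine mk_range_le.trans ?_
  rw [mk_prod, lift_id']
  refine (mul_le_mul' (?_ : lift.{u} #ℕ ≤ max #κ ℵ₀) (le_max_left #κ ℵ₀)).trans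
    (mul_eq_self (le_max_right _ _)).le
  refine le_trans ?_ (le_max_right _ _)
  rw [lift_le_aleph0]
  exact mk_le_aleph0

end Pool.Agent.Y320.BP
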